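import Pool.Agent.Y316.PC.Neg

set_option autoImplicit false

open MeasureTheory Set Filter Topology Pool.Agent.Y316.PC
open scoped ENNReal NNReal

/-- Poisson point processes on unimodular lcsc groups have completely positive sofic entropy: for
every sofic approximation if the group is not compact, and exactly for the sofic approximations of
unbounded volume in general. -/
theorem Pool.Agent.Results.MP_13bd65_an.PoissonCPE.result
    {G : Type} [Group G] [TopologicalSpace G] [IsTopologicalGroup G] [T2Space G]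
    [LocallyCompactSpace G] [SecondCountableTopology G] [MeasurableSpace G] [BorelSpace G]
    (haar : Measure G) [haar.IsHaarMeasure] [haar.IsMulRightInvariant]
    {t : ℝ≥0} (ht : t ≠ 0) {P : Measure (Measure G)} (hP : IsPoisson haar t P)
    {M : ℕ → Type} [∀ i, TopologicalSpace (M i)] [∀ i, MeasurableSpace (M i)]
    [∀ i, BorelSpace (M i)] [∀ i, SecondCountableTopology (M i)]
    [∀ i, LocallyCompactSpace (M i)] [∀ i, T2Space (M i)]
    {S : ∀ i, LocalSpace G (M i)} {v : ∀ i, Measure (M i)} (hS : IsSofic haar S v) :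
    (NoncompactSpace G → Tendsto (fun i => v i univ) atTop (𝓝 ⊤) ∧ HasCPE S v P) ∧
    ((¬ ∃ B : ℝ, ∀ i, (v i univ).toReal ≤ B) → HasCPE S v P) ∧
    ((∃ B : ℝ, ∀ i, (v i univ).toReal ≤ B) →
      ∃ ν : ProbabilityMeasure ℕ, (ν : Measure ℕ) = P.map (fun ω => ⌊(ω univ).toReal⌋₊) ∧
        (∀ y, (ν : Measure ℕ) ≠ Measure.dirac y) ∧
        @soficEntropy G ℕ _ _ _ _ _ (trivAct G) M _ _ S v dst ν = ⊥) := by
  refine ⟨fun _ => ⟨vol_tendsto hS, cpe_of_noncompact hP ht hS⟩,
    fun h => (cpe_iff hP ht hS).mpr h, ?_⟩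
  rintro ⟨B, hB⟩
  exact neg_factor hP ht hS hB
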